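import Mathlib
import Pool.Agent.Mg.F43e117.Gdbd69a

set_option autoImplicit false

namespace Pool.Agent.Results.MP_c853c5_nt.GapsOddChar

open Polynomial

/-- Over a finite field of odd characteristic `p`, in every large degree `n` there is an interval
of size at least `c * (n / log n) ^ (p / (p - 1))` containing no irreducible polynomial. -/
theorem result (F : Type) [Field F] [Fintype F] (p : ℕ) [CharP F p] (hp : p ≠ 2) :
    ∃ c : ℝ, 0 < c ∧ ∀ᶠ n : ℕ in Filter.atTop, ∃ (f : F[X]) (h : ℕ),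
      f.Monic ∧ f.natDegree = n ∧ h < n ∧
        c * ((n : ℝ) / Real.log n) ^ ((p : ℝ) / ((p : ℝ) - 1)) ≤ (Fintype.card F : ℝ) ^ h ∧
        ∀ y : F[X], y.degree < h → ¬ Irreducible (f + y) := by
  have _ := hp
  have : Fact p.Prime := ⟨CharP.char_is_prime F p⟩
  have hp2 := (Fact.out : p.Prime).two_le
  obtain ⟨c, hc, H⟩ := Pool.Agent.MP_c853c5_nt.gap_all (F := F) (p := p)
  have e : ((p - 1 : ℕ) : ℝ) = (p : ℝ) - 1 := by rw [Nat.cast_sub (by omega), Nat.cast_one]
  refine ⟨c ^ ((p : ℝ) - 1)⁻¹, Real.rpow_pos_of_pos hc _, ?_⟩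
  filter_upwards [H] with n ⟨f, h, h1, h2, h3, h4, h5⟩
  refine ⟨f, h, h1, h2, h3, ?_, h5⟩
  have h6 : 0 ≤ (n : ℝ) / Real.log n := div_nonneg (Nat.cast_nonneg _) (Real.log_natCast_nonneg n)
  have h7 := Real.rpow_le_rpow (by positivity) h4 (z := ((p - 1 : ℕ) : ℝ)⁻¹) (by positivity)
  rwa [Real.pow_rpow_inv_natCast (by positivity) (by omega), Real.mul_rpow hc.le (by positivity),
    ← Real.rpow_natCast _ p, ← Real.rpow_mul h6, ← div_eq_mul_inv, e] at h7

end Pool.Agent.Results.MP_c853c5_nt.GapsOddChar
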